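import Pool.Agent.H72.SharpK

namespace Pool.Agent.Results.MP_301b8f_al.RigidSharp

open Set Function

universe u v

variable {ι : Type u} {ar : ι → ℕ} {M : Type v}

/-- `f` restricted to `S` is an isomorphism of the substructure on `S` onto the substructure on
its image (the structure on `M` has one relation `R i` of arity `ar i` for each symbol `i`). -/
def PIso (R : ∀ i, (Fin (ar i) → M) → Prop) (S : Set M) (f : M → M) : Prop :=
  InjOn f S ∧ ∀ i x, range x ⊆ S → (R i (f ∘ x) ↔ R i x)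

/-- `σ` is an automorphism of the structure. -/
def IsAut (R : ∀ i, (Fin (ar i) → M) → Prop) (σ : Equiv.Perm M) : Prop :=
  ∀ i x, R i (σ ∘ x) ↔ R i x

/-- Every isomorphism between finite substructures extends to an automorphism. -/
def Ultrahomogeneous (R : ∀ i, (Fin (ar i) → M) → Prop) : Prop :=
  ∀ (S : Set M) (f : M → M), S.Finite → PIso R S f → ∃ σ, IsAut R σ ∧ EqOn σ f S

/-- The class of finite substructures has strong amalgamation: embeddings `f : A → B`,
`g : A → C` of finite substructures are amalgamated by embeddings `f'`, `g'` of `B`, `C` whose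
images meet only in the image of `A`. -/
def StrongAmalgamation (R : ∀ i, (Fin (ar i) → M) → Prop) : Prop :=
  ∀ (A B C : Set M) (f g : M → M), A.Finite → B.Finite → C.Finite →
    PIso R A f → MapsTo f A B → PIso R A g → MapsTo g A C →
    ∃ f' g' : M → M, PIso R B f' ∧ PIso R C g' ∧ (∀ a ∈ A, f' (f a) = g' (g a)) ∧
      ∀ b ∈ B, ∀ c ∈ C, f' b = g' c → ∃ a ∈ A, f a = b ∧ g a = c

/-- Every substructure with exactly `k` elements has trivial automorphism group. -/
def RigidSubsets (R : ∀ i, (Fin (ar i) → M) → Prop) (k : ℕ) : Prop :=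
  ∀ (S : Set M) (f : M → M), S.encard = k → PIso R S f → f '' S = S → ∀ x ∈ S, f x = x

/-- The action `ρ` by automorphisms is structurally sharply `k`-transitive. -/
def SharplyTransitive (R : ∀ i, (Fin (ar i) → M) → Prop) (k : ℕ) {G : Type} [Group G]
    (ρ : G →* Equiv.Perm M) : Prop :=
  (∀ g, IsAut R (ρ g)) ∧ ∀ a b : Fin k → M, Injective a → Injective b →
    (∀ i (x : Fin (ar i) → Fin k), R i (a ∘ x) ↔ R i (b ∘ x)) → ∃! g, ∀ j, ρ g (a j) = b j

/-- Every Fraïssé structure with rigid `k`-subsets has a sharply `k`-transitive action of the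
free group of countably infinite rank. -/
theorem result (ι : Type u) (ar : ι → ℕ) (M : Type v) [Countable M] [Infinite M]
    (R : ∀ i, (Fin (ar i) → M) → Prop) (hU : Ultrahomogeneous R) (hS : StrongAmalgamation R)
    (k : ℕ) (hk : 1 ≤ k) (hr : RigidSubsets R k) :
    ∃ ρ : FreeGroup ℕ →* Equiv.Perm M, SharplyTransitive R k ρ := by
  let Γ : Subgroup (Equiv.Perm M) :=
    { carrier := {σ | IsAut R σ}
      one_mem' := fun _ _ => Iff.rfl
      mul_mem' := fun {σ τ} h1 h2 i x => (h1 i (τ ∘ x)).trans (h2 i x)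
      inv_mem' := fun {σ} h i x => by
        rw [← h i (⇑σ⁻¹ ∘ x)]; simp [comp_def] }
  have pid : ∀ S, PIso R S id := fun S => ⟨injOn_id _, fun _ _ _ => Iff.rfl⟩
  refine (H72.SharpK.main Γ k hk ?_ ?_ ?_).elim fun ρ ⟨h1, h2⟩ => ?_
  rotate_right
  · refine ⟨ρ, h1, fun a b ha hb hab => ?_⟩
    refine (hU (range a) (extend a b id) (finite_range a) ⟨?_, ?_⟩).elim fun σ ⟨h3, h4⟩ => ?_
    rotate_right
    · obtain ⟨w, h5, h6⟩ := h2 a b ha
        ⟨σ, h3, funext fun j => (h4 ⟨j, rfl⟩).trans (ha.extend_apply _ _ j)⟩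
      exact ⟨w, congrFun h5, fun v hv => h6 v (funext hv)⟩
    · rintro _ ⟨i, rfl⟩ _ ⟨j, rfl⟩ e
      rw [ha.extend_apply, ha.extend_apply] at e
      rw [hb e]
    · intro i x hx
      choose y hy using fun t => hx (mem_range_self t)
      obtain rfl : x = a ∘ y := funext fun t => (hy t).symm
      rw [hab]
      exact iff_of_eq (congrArg _ (funext fun t => ha.extend_apply _ _ _))
  · intro g hg i x
    obtain ⟨σ, h1, h2⟩ := hg _ (finite_range x)
    rw [← h1 i x]
    exact iff_of_eq (congrArg _ (funext fun t => (h2 _ ⟨t, rfl⟩).symm))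
  · intro A B hA hB x hx
    obtain ⟨f', g', h1, h2, h3, h4⟩ := hS A (insert x A) (A ∪ B) id id hA (hA.insert x)
      (hA.union hB) (pid _) (subset_insert _ _) (pid _) subset_union_left
    obtain ⟨σ, s1, s2⟩ := hU _ f' (hA.insert x) h1
    obtain ⟨τ, t1, t2⟩ := hU _ g' (hA.union hB) h2
    refine ⟨τ⁻¹ * σ, Γ.mul_mem (Γ.inv_mem t1) s1, fun a ha => ?_, fun hb => ?_⟩
    · rw [Equiv.Perm.mul_apply, Equiv.Perm.inv_eq_iff_eq, s2 (Or.inr ha), t2 (Or.inl ha)]
      exact h3 a ha
    · obtain ⟨a, ha, e, -⟩ := h4 x (Or.inl rfl) _ (Or.inr hb) (by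
        rw [← s2 (Or.inl rfl), ← t2 (Or.inr hb)]; simp)
      exact hx (e ▸ ha)
  · intro a ha γ hγ π e
    ext j
    refine congrArg _ (ha ?_)
    rw [Equiv.Perm.one_apply, ← comp_apply (f := a), ← e]
    refine hr (range a) γ (by rw [← image_univ, ha.encard_image]; simp)
      ⟨γ.injective.injOn, fun i x _ => hγ i x⟩ ?_ _ ⟨j, rfl⟩
    rw [← range_comp, e, range_comp, π.surjective.range_eq, image_univ]

end Pool.Agent.Results.MP_301b8f_al.RigidSharp
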